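import Mathlib
import Pool.Agent.Lib.RM48.Defs

/-!
# Definitions for the statement: Jensen's `◇` holds in a model of set theory
-/

set_option autoImplicit false

namespace Pool.Agent.Lib.RM48

open Pool.Agent.Lib.SymZF

section

variable {M : Type} (E : M → M → Prop)

/-- `x` is an ordinal of `M`: a transitive set of transitive sets. -/
def IsOrd (x : M) : Prop :=
  (∀ y, E y x → ∀ z, E z y → E z x) ∧ ∀ y, E y x → ∀ z, E z y → ∀ t, E t z → E t y

/-- `x` is countable in `M`: some `f` of `M` is an injective function from `x` to `ω`. -/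
def IsCtbl (x : M) : Prop := ∃ w f, IsOmega E w ∧
  (∀ a, E a x → ∃! n, Rel E f a n) ∧ (∀ a n, E a x → Rel E f a n → E n w) ∧
  ∀ a a' n, E a x → E a' x → Rel E f a n → Rel E f a' n → a = a'

/-- `W = ω₁` in `M`: `W` is an uncountable ordinal all of whose elements are countable. -/
def IsOmega1 (W : M) : Prop := IsOrd E W ∧ ¬ IsCtbl E W ∧ ∀ y, E y W → IsCtbl E y

/-- `C` is a closed unbounded subset of the ordinal `W` in `M`. -/
def IsClubIn (W C : M) : Prop := (∀ a, E a C → E a W) ∧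
  (∀ a, E a W → ∃ b, E b C ∧ E a b) ∧
  ∀ a, E a W → (∃ b, E b a) → (∀ b, E b a → ∃ c, E c C ∧ E b c ∧ E c a) → E a C

/-- Jensen's `◇` holds in `M`: there is a function `A` on `W = ω₁` such that for all `X ⊆ W` and
all closed unbounded `C ⊆ W` some `a ∈ C` has `X ∩ a = A(a)`. -/
def DiamondIn : Prop := ∃ W A, IsOmega1 E W ∧ (∀ a, E a W → ∃! S, Rel E A a S) ∧
  ∀ X C, (∀ x, E x X → E x W) → IsClubIn E W C →
    ∃ a S, E a C ∧ Rel E A a S ∧ ∀ x, E x S ↔ E x X ∧ E x a

end

end Pool.Agent.Lib.RM48
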