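import Mathlib
import Pool.Agent.Lib.SymZF.RO
import Pool.Agent.Lib.RM48.SS.Main
import Pool.Agent.Lib.RM48.Dia.Defs
import Pool.Agent.Lib.MP_302921_gt.Guess

section

/-!
# Countable partial functions
-/

set_option autoImplicit false

open Set

namespace Pool.Agent.Lib.RM48

open Pool.Agent.Lib.SymZF

/-- The conditions: partial functions from `D` to `{0, 1}` with countable domain. -/
structure Cnd (D : Type) where
  /-- the function -/
  f : D → Option Bool
  ctbl : {x | f x ≠ none}.Countable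

variable {D : Type}

instance : Preorder (Cnd D) where
  le p q := ∀ x b, q.f x = some b → p.f x = some b
  le_refl p := fun _ _ h => h
  le_trans p q r h1 h2 := fun x b h => h1 x b (h2 x b h)

lemma Cnd.le_def (p q : Cnd D) : p ≤ q ↔ ∀ x b, q.f x = some b → p.f x = some b := Iff.rfl

open Classical in
/-- the condition with one value -/
noncomputable def Cnd.single (x : D) (b : Bool) : Cnd D where
  f y := if y = x then some b else none
  ctbl := by
    refine (countable_singleton x).mono fun y hy => ?_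
    by_contra h
    exact hy (if_neg h)

lemma Cnd.le_single {p : Cnd D} {x : D} {b : Bool} : p ≤ Cnd.single x b ↔ p.f x = some b := by
  classical
  rw [Cnd.le_def]
  constructor
  · intro h
    exact h x b (if_pos rfl)
  · intro h y c hy
    by_cases hyx : y = x
    · subst hyx
      have h1 : (Cnd.single y b).f y = some b := if_pos rfl
      rw [h1] at hy
      rw [h, hy]
    · have h1 : (Cnd.single x b).f y = none := if_neg hyx
      rw [h1] at hy
      cases hy

lemma Cnd.exists_lower (p : ℕ → Cnd D) (hp : ∀ n, p (n + 1) ≤ p n) :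
    ∃ q : Cnd D, (∀ n, q ≤ p n) ∧ ∀ x, (∀ n, (p n).f x = none) → q.f x = none := by
  classical
  have hanti : ∀ m n, m ≤ n → p n ≤ p m := by
    intro m n h
    induction n, h using Nat.le_induction with
    | base => exact le_rfl
    | succ n _ ih => exact (hp n).trans ih
  let g : D → Option Bool := fun x => if h : ∃ b, ∃ n, (p n).f x = some b then some h.choose else none
  have hg : ∀ x b n, (p n).f x = some b → g x = some b := by
    intro x b n h
    have h1 : ∃ b, ∃ n, (p n).f x = some b := ⟨b, n, h⟩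
    obtain ⟨m, hm⟩ := h1.choose_spec
    have h2 : h1.choose = b := by
      have e1 := hanti m (max m n) (le_max_left _ _) x _ hm
      have e2 := hanti n (max m n) (le_max_right _ _) x _ h
      rw [e1] at e2
      exact Option.some.inj e2
    simp only [g]
    rw [dif_pos h1, h2]
  have hg2 : ∀ x, (∀ n, (p n).f x = none) → g x = none := by
    intro x h
    simp only [g]
    rw [dif_neg]
    rintro ⟨b, n, hb⟩
    rw [h n] at hb
    cases hb
  refine ⟨⟨g, ?_⟩, fun n x b h => hg x b n h, hg2⟩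
  refine (countable_iUnion fun n => (p n).ctbl).mono fun x hx => ?_
  by_contra hcon
  simp only [mem_iUnion, not_exists, mem_ofPred_eq, not_not] at hcon
  exact hx (hg2 x hcon)

/-- The values given by `d` on a countable set disjoint from the domain can be added. -/
lemma Cnd.exists_ext (p : Cnd D) (S : Set D) (hS : S.Countable) (d : D → Bool)
    (hd : ∀ x ∈ S, p.f x = none) : ∃ q ≤ p, ∀ x ∈ S, q.f x = some (d x) := by
  classical
  refine ⟨⟨fun x => if x ∈ S then some (d x) else p.f x, ?_⟩, ?_, ?_⟩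
  · refine (hS.union p.ctbl).mono fun x hx => ?_
    by_cases h : x ∈ S
    · exact Or.inl h
    · refine Or.inr fun h2 => hx ?_
      rw [if_neg h]
      exact h2
  · intro x b h
    by_cases hx : x ∈ S
    · rw [hd x hx] at h
      cases h
    · simp only
      rw [if_neg hx]
      exact h
  · intro x hx
    simp only
    rw [if_pos hx]

/-! ### Forcing -/

section forcing

lemma bot_of_iSup {B : Type} [CompleteBooleanAlgebra B] {I : Type*} {a : B} {t : I → B}
    (h : a ≤ ⨆ i, t i) (h1 : ∀ i, a ⊓ t i = ⊥) : a = ⊥ := by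
  rw [← le_bot_iff]
  calc a ≤ a ⊓ ⨆ i, t i := le_inf le_rfl h
    _ = ⊥ := by rw [inf_iSup_eq]; simp [h1]
    _ ≤ ⊥ := le_rfl

lemma inf_iSup_le' {B : Type} [CompleteBooleanAlgebra B] {I : Type*} {a b : B} {t : I → B}
    (h : ∀ i, a ⊓ t i ≤ b) : a ⊓ ⨆ i, t i ≤ b := by
  rw [inf_iSup_eq]
  exact iSup_le h

lemma iSup_inf_le' {B : Type} [CompleteBooleanAlgebra B] {I : Type*} {a b : B} {t : I → B}
    (h : ∀ i, t i ⊓ a ≤ b) : (⨆ i, t i) ⊓ a ≤ b := by
  rw [iSup_inf_eq]
  exact iSup_le h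

lemma le_inf_top {B : Type} [CompleteBooleanAlgebra B] {a b : B} (h : a ≤ b) :
    a ≤ b ⊓ (⊤ ⊓ ⊤) := by
  rw [inf_top_eq, inf_top_eq]
  exact h

lemma inf3_iSup_le {B : Type} [CompleteBooleanAlgebra B] {I : Type*} {a b c : B} {t : I → B}
    (h : ∀ i, a ⊓ (b ⊓ t i) ≤ c) : a ⊓ (b ⊓ ⨆ i, t i) ≤ c := by
  rw [inf_iSup_eq, inf_iSup_eq]
  exact iSup_le h

lemma le_of_inf_compl {B : Type} [CompleteBooleanAlgebra B] {a t : B} (h : a ⊓ tᶜ = ⊥) :
    a ≤ t := by
  rw [← disjoint_iff] at h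
  have := h.le_compl_right
  rwa [compl_compl] at this

lemma bot_of_compl {B : Type} [CompleteBooleanAlgebra B] {a t : B} (h : a ≤ t) (h' : a ≤ tᶜ) :
    a = ⊥ := by
  rw [← le_bot_iff, ← inf_compl_self (a := t)]
  exact le_inf h h'

lemma le_of_compl {B : Type} [CompleteBooleanAlgebra B] {a t b : B} (h : a ≤ t) (h' : a ≤ tᶜ) :
    a ≤ b := by
  rw [bot_of_compl h h']
  exact bot_le

variable {P : Type} [Preorder P]

/-- `p` forces an instance of a supremum after strengthening -/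
lemma exists_le_iSup {I : Type*} {p : P} {t : I → RO P} (h : emb p ≤ ⨆ i, t i) :
    ∃ q ≤ p, ∃ i, emb q ≤ t i := by
  by_contra hcon
  push Not at hcon
  have h1 : ∀ i, emb p ⊓ t i = ⊥ := by
    intro i
    by_contra hne
    obtain ⟨r, hr⟩ := exists_emb_le hne
    have h2 := emb_le_iff.1 (hr.trans inf_le_left)
    rw [mem_emb] at h2
    obtain ⟨s, hs, hsp⟩ := h2 r le_rfl
    exact hcon s hsp i ((emb_mono hs).trans (hr.trans inf_le_right))
  exact emb_ne_bot p (bot_of_iSup h h1)

/-- `p` decides a Boolean value after strengthening -/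
lemma exists_dec (p : P) (t : RO P) : ∃ q ≤ p, emb q ≤ t ∨ emb q ≤ tᶜ := by
  have h : emb p ≤ ⨆ b : Bool, (if b = true then t else tᶜ) := by
    refine le_trans le_top ?_
    rw [← sup_compl_eq_top (x := t)]
    exact sup_le (le_iSup_of_le true (by simp)) (le_iSup_of_le false (by simp))
  obtain ⟨q, hq, b, hb⟩ := exists_le_iSup h
  refine ⟨q, hq, ?_⟩
  cases b
  · exact Or.inr (by simpa using hb)
  · exact Or.inl (by simpa using hb)

/-- to show `emb p ≤ t` it is enough to find below every `q ≤ p` some `r` with `emb r ≤ t` -/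
lemma emb_le_of_dense {p : P} {t : RO P} (h : ∀ q ≤ p, ∃ r ≤ q, emb r ≤ t) : emb p ≤ t := by
  by_contra hcon
  have h1 : emb p ⊓ tᶜ ≠ ⊥ := by
    intro h2
    exact hcon (le_of_inf_compl h2)
  obtain ⟨r, hr⟩ := exists_emb_le h1
  have h2 := emb_le_iff.1 (hr.trans inf_le_left)
  rw [mem_emb] at h2
  obtain ⟨s, hs, hsp⟩ := h2 r le_rfl
  obtain ⟨u, hu, hut⟩ := h s hsp
  have h3 : emb u ≤ tᶜ := ((emb_mono hu).trans (emb_mono hs)).trans (hr.trans inf_le_right)
  exact emb_ne_bot u (bot_of_compl hut h3)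

lemma eq_top_of_dense {t : RO P} (h : ∀ p : P, ∃ r ≤ p, emb r ≤ t) : t = ⊤ := by
  by_contra hcon
  have h1 : tᶜ ≠ ⊥ := fun h2 => hcon (by rw [← compl_compl t, h2, compl_bot])
  obtain ⟨p, hp⟩ := exists_emb_le h1
  obtain ⟨r, hr, hrt⟩ := h p
  exact emb_ne_bot r (bot_of_compl hrt ((emb_mono hr).trans hp))

end forcing

/-- countably many decisions -/
lemma exists_dec_all {I : Type*} [Countable I] (p : Cnd D) (t : I → RO (Cnd D)) :
    ∃ q ≤ p, ∀ i, emb q ≤ t i ∨ emb q ≤ (t i)ᶜ := by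
  classical
  rcases isEmpty_or_nonempty I with hE | hN
  · exact ⟨p, le_rfl, fun i => (hE.false i).elim⟩
  obtain ⟨g, hg⟩ := exists_surjective_nat I
  have h1 : ∀ (n : ℕ) (q : Cnd D), ∃ r ≤ q, emb r ≤ t (g n) ∨ emb r ≤ (t (g n))ᶜ :=
    fun n q => exists_dec q (t (g n))
  choose F hF1 hF2 using h1
  let s : ℕ → Cnd D := fun n => Nat.rec p (fun n q => F n q) n
  have hs : ∀ n, s (n + 1) = F n (s n) := fun n => rfl
  obtain ⟨q, hq, _⟩ := Cnd.exists_lower s fun n => by rw [hs]; exact hF1 _ _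
  refine ⟨q, hq 0, fun i => ?_⟩
  obtain ⟨n, rfl⟩ := hg i
  have h2 : q ≤ F n (s n) := by
    rw [← hs]
    exact hq (n + 1)
  rcases hF2 n (s n) with h | h
  · exact Or.inl ((emb_mono h2).trans h)
  · exact Or.inr ((emb_mono h2).trans h)

/-- the Boolean value of: the generic function has the value `1` at `x` -/
noncomputable def gval (x : D) : RO (Cnd D) := emb (Cnd.single x true)

lemma emb_le_gval {p : Cnd D} {x : D} (h : p.f x = some true) : emb p ≤ gval x :=
  emb_mono (Cnd.le_single.2 h)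

lemma emb_le_gval_compl {p : Cnd D} {x : D} (h : p.f x = some false) : emb p ≤ (gval x)ᶜ := by
  rw [le_compl_iff_disjoint_right, disjoint_iff]
  refine emb_inf_eq_bot fun r hr hr2 => ?_
  have h1 := hr x _ h
  rw [Cnd.le_single] at hr2
  rw [h1] at hr2
  cases hr2

end Pool.Agent.Lib.RM48
end

section

/-!
# Names for the elements of a well-ordered type
-/

set_option autoImplicit false

open Set

namespace Pool.Agent.Lib.RM48

open Pool.Agent.Lib.SymZF Pool.Agent.Lib.SymZF.SymSys Name Pool.Agent.Lib.KZF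

section

variable {B : Type} [CompleteBooleanAlgebra B] {W : Type} [LinearOrder W] [WellFoundedLT W]

/-- The names of the elements of `W`: `och i = {och j : j < i}`. -/
noncomputable def och (B : Type) [CompleteBooleanAlgebra B] {W : Type} [LinearOrder W]
    [WellFoundedLT W] : W → (tS B).HSet :=
  WellFounded.fix (C := fun _ => (tS B).HSet) (r := fun a b : W => a < b) wellFounded_lt
    fun i ih => fm (fun j : {j : W // j < i} => ih j.1 j.2) (fun _ => ⊤)

lemma och_eq (i : W) : och B i = fm (fun j : {j : W // j < i} => och B j.1) (fun _ => ⊤) := by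
  rw [och, WellFounded.fix_eq]

lemma mem_och (w : (tS B).HSet) (i : W) :
    (w.mem (och B i) : B) = ⨆ j : {j : W // j < i}, w.eq (och B j.1) := by
  rw [och_eq, mem_fm]
  exact iSup_congr fun j => top_inf_eq _

lemma och_lt {i j : W} (h : i < j) : ((och B i).mem (och B j) : B) = ⊤ := by
  rw [eq_top_iff, mem_och]
  refine le_iSup_of_le ⟨i, h⟩ ?_
  rw [HSet.eq_refl]

lemma och_ge {i j : W} (h : j ≤ i) : ((och B i).mem (och B j) : B) = ⊥ := by
  induction j using WellFoundedLT.induction generalizing i with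
  | ind j ih =>
    rw [eq_bot_iff, mem_och]
    refine iSup_le fun k => ?_
    have h1 := HSet.mem_congr_right (och B k.1) (och B i) (och B k.1)
    rw [och_lt (lt_of_lt_of_le k.2 h), inf_top_eq, ih k.1 k.2 le_rfl] at h1
    exact h1

lemma och_ne {i j : W} (h : i ≠ j) : ((och B i).eq (och B j) : B) = ⊥ := by
  wlog hlt : i < j generalizing i j
  · rw [HSet.eq_symm]
    exact this h.symm (lt_of_le_of_ne (not_lt.1 hlt) h.symm)
  have h1 := HSet.mem_congr_right (och B i) (och B j) (och B i)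
  rw [och_lt hlt, inf_top_eq, och_ge le_rfl, HSet.eq_symm] at h1
  exact le_bot_iff.1 h1

variable (B W) in
/-- the name of the set of the elements of `W` -/
noncomputable def oW : (tS B).HSet := fm (fun i : W => och B i) (fun _ => ⊤)

lemma mem_oW (i : W) : ((och B i).mem (oW B W) : B) = ⊤ := mem_fm_top (fun i : W => och B i) i

lemma mem_oW_eq (w : (tS B).HSet) : (w.mem (oW B W) : B) = ⨆ i : W, w.eq (och B i) := by
  rw [oW, mem_fm]
  exact iSup_congr fun j => top_inf_eq _

/-- bounded quantification over an element of `W` -/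
lemma le_of_och (P : (tS B).HSet → B) (hP : ∀ x y : (tS B).HSet, x.eq y ⊓ P x ≤ P y) (i : W)
    (a : B) (h : ∀ j < i, a ≤ P (och B j)) (w : (tS B).HSet) : a ⊓ w.mem (och B i) ≤ P w := by
  rw [mem_och, inf_iSup_eq]
  refine iSup_le fun j => ?_
  refine le_trans ?_ (hP (och B j.1) w)
  rw [inf_comm, HSet.eq_symm]
  exact inf_le_inf_left _ (h j.1 j.2)

/-- bounded quantification over `W` -/
lemma le_of_oW (P : (tS B).HSet → B) (hP : ∀ x y : (tS B).HSet, x.eq y ⊓ P x ≤ P y)
    (a : B) (h : ∀ j : W, a ≤ P (och B j)) (w : (tS B).HSet) : a ⊓ w.mem (oW B W) ≤ P w := by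
  rw [mem_oW_eq, inf_iSup_eq]
  refine iSup_le fun j => ?_
  refine le_trans ?_ (hP (och B j) w)
  rw [inf_comm, HSet.eq_symm]
  exact inf_le_inf_left _ (h j)

/-- the name of the function `i ↦ g i` on the elements satisfying `D` -/
noncomputable def ofn (D : Set W) (g : W → (tS B).HSet) : (tS B).HSet :=
  fm (fun i : D => (och B i.1).opair (g i.1)) (fun _ => ⊤)

lemma relv_ofn {D : Set W} (g : W → (tS B).HSet) {i : W} (hi : i ∈ D) :
    relv (ofn D g) (och B i) (g i) = ⊤ :=
  mem_fm_top (fun i : D => (och B i.1).opair (g i.1)) ⟨i, hi⟩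

lemma relv_ofn_le {D : Set W} (g : W → (tS B).HSet) (i : W) (N : (tS B).HSet) :
    relv (ofn D g) (och B i) N ≤ N.eq (g i) := by
  rw [relv, ofn, mem_fm]
  refine iSup_le fun r' => inf_le_right.trans ((opair_eq_le _ _ _ _).trans ?_)
  by_cases h : i = r'.1
  · subst h
    exact inf_le_right
  · rw [och_ne h, bot_inf_eq]
    exact bot_le

end

end Pool.Agent.Lib.RM48
end

section

/-!
# A model of `ZFC` and `◇`
-/

set_option autoImplicit false

open Set

namespace Pool.Agent.Lib.RM48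

open Pool.Agent.Lib.SymZF Pool.Agent.Lib.SymZF.SymSys Name Pool.Agent.Lib.KZF
open Pool.Agent.Lib.MP_302921_gt (Omega1 omega1_bound omega1_Iio_countable)

/-! ### The formulas -/

/-- `v i = ω` -/
def fOm (i : ℕ) : FmlX :=
  FmlX.all ((FmlX.mem 0 (i + 1)).iff (FmlX.ex ((FmlX.real 0).and (FmlX.mem 1 0))))

/-- `v i` is an ordinal -/
def fOrd (i : ℕ) : FmlX :=
  (FmlX.all ((FmlX.mem 0 (i + 1)).imp (FmlX.all ((FmlX.mem 0 1).imp (FmlX.mem 0 (i + 2)))))).and
    (FmlX.all ((FmlX.mem 0 (i + 1)).imp (FmlX.all ((FmlX.mem 0 1).imp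
      (FmlX.all ((FmlX.mem 0 1).imp (FmlX.mem 0 2)))))))

/-- `v 0` is a function from `v (i + 2)` to `v 1` -/
def fFnw (i : ℕ) : FmlX :=
  FmlX.all ((FmlX.mem 0 (i + 3)).imp (FmlX.ex ((xRel 2 1 0).and ((FmlX.mem 0 3).and
    (FmlX.all ((xRel 3 2 0).imp (FmlX.eq 0 1)))))))

/-- `v 0` is injective on `v (i + 2)` -/
def fInj (i : ℕ) : FmlX :=
  FmlX.all (FmlX.all (FmlX.all ((FmlX.mem 2 (i + 5)).imp ((FmlX.mem 1 (i + 5)).imp
    ((xRel 3 2 0).imp ((xRel 3 1 0).imp (FmlX.eq 2 1)))))))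

/-- `v i` is countable -/
def fCtbl (i : ℕ) : FmlX := FmlX.ex (FmlX.ex ((fOm 1).and ((fFnw i).and (fInj i))))

/-- `v i ⊆ v j` -/
def fSub (i j : ℕ) : FmlX := FmlX.all ((FmlX.mem 0 (i + 1)).imp (FmlX.mem 0 (j + 1)))

/-- `v 0` is a closed unbounded subset of `v 3` -/
def fClub : FmlX :=
  (fSub 0 3).and ((FmlX.all ((FmlX.mem 0 4).imp (FmlX.ex ((FmlX.mem 0 2).and (FmlX.mem 1 0))))).and
    (FmlX.all ((FmlX.mem 0 4).imp ((FmlX.ex (FmlX.mem 0 1)).imp
      ((FmlX.all ((FmlX.mem 0 1).imp (FmlX.ex ((FmlX.mem 0 3).and ((FmlX.mem 1 0).and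
        (FmlX.mem 0 2)))))).imp (FmlX.mem 0 1))))))

/-- some `a ∈ v 0` has `v 1 ∩ a = (v 2)(a)` -/
def fGuess : FmlX :=
  FmlX.ex (FmlX.ex ((FmlX.mem 1 2).and ((xRel 4 1 0).and
    (FmlX.all ((FmlX.mem 0 1).iff ((FmlX.mem 0 4).and (FmlX.mem 0 2)))))))

/-- `◇` -/
def fDia : FmlX :=
  FmlX.ex (FmlX.ex (((fOrd 1).and ((FmlX.neg (fCtbl 1)).and
    (FmlX.all ((FmlX.mem 0 2).imp (fCtbl 0))))).and
    ((FmlX.all ((FmlX.mem 0 2).imp (FmlX.ex ((xRel 2 1 0).and
      (FmlX.all ((xRel 3 2 0).imp (FmlX.eq 0 1))))))).and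
    (FmlX.all (FmlX.all ((fSub 1 3).imp (fClub.imp fGuess)))))))

section sat

variable {M : Type} {E : M → M → Prop} (C : ℕ → BF) (v : ℕ → M)

lemma satX_fOm (hE : IsZF E) (i : ℕ) : SatX E C (fOm i) v ↔ IsOmega E (v i) := by
  obtain ⟨w, hw⟩ := omega_ex hE
  have hR : IsReal E w := ⟨w, hw, fun z hz => hz⟩
  have key : ∀ z, (∃ r, IsReal E r ∧ E z r) ↔ E z w := by
    intro z
    constructor
    · rintro ⟨r, ⟨w', hw', h⟩, hz⟩
      rw [omega_unique hE hw hw']
      exact h z hz
    · exact fun h => ⟨w, hR, h⟩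
  simp only [fOm, satX_all, satX_iff, satX_mem, satX_ex, satX_and, satX_real, scons_zero,
    scons_succ]
  constructor
  · intro h
    have h1 : v i = w := hE.ext _ _ fun z => by
      rw [h z]
      exact key z
    rw [h1]
    exact hw
  · intro h z
    rw [omega_unique hE h hw]
    exact (key z).symm

lemma satX_fOrd (i : ℕ) : SatX E C (fOrd i) v ↔ IsOrd E (v i) := by
  simp only [fOrd, satX_all, satX_imp, satX_mem, satX_and, scons_zero,
    scons_succ]
  rfl

lemma satX_fCtbl (hE : IsZF E) (i : ℕ) : SatX E C (fCtbl i) v ↔ IsCtbl E (v i) := by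
  simp only [fCtbl, fFnw, fInj, satX_all, satX_imp, satX_mem, satX_and, satX_ex, satX_eq,
    satX_xRel, satX_fOm C _ hE, scons_zero, scons_succ]
  constructor
  · rintro ⟨w, f, hw, h1, h2⟩
    refine ⟨w, f, hw, ?_, ?_, ?_⟩
    · intro a ha
      obtain ⟨n, h3, h4, h5⟩ := h1 a ha
      exact ⟨n, h3, h5⟩
    · intro a n ha hn
      obtain ⟨n', h3, h4, h5⟩ := h1 a ha
      rw [h5 n hn]
      exact h4
    · intro a a' n ha ha' hn hn'
      exact h2 a a' n ha ha' hn hn'
  · rintro ⟨w, f, hw, h1, h2, h3⟩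
    refine ⟨w, f, hw, fun a ha => ?_, fun a a' n ha ha' hn hn' => h3 a a' n ha ha' hn hn'⟩
    obtain ⟨n, h4, h5⟩ := h1 a ha
    exact ⟨n, h4, h2 a n ha h4, h5⟩

theorem dia_of_sat (hE : IsZF E) (h : SatX E C fDia v) : DiamondIn E := by
  simp only [fDia, fClub, fSub, fGuess, satX_all, satX_imp, satX_mem, satX_and, satX_ex, satX_eq,
    satX_neg, satX_iff, satX_xRel, satX_fOrd, satX_fCtbl C _ hE, scons_zero, 
    scons_succ, Nat.reduceAdd] at h
  obtain ⟨W, A, ⟨h1, h2, h3⟩, h4, h5⟩ := h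
  refine ⟨W, A, ⟨h1, h2, h3⟩, fun a ha => ?_, fun X C hX hC => ?_⟩
  · obtain ⟨S, h6, h7⟩ := h4 a ha
    exact ⟨S, h6, h7⟩
  · obtain ⟨a, S, h6, h7, h8⟩ := h5 X C hX hC
    exact ⟨a, S, h6, h7, h8⟩

end sat

/-! ### General Boolean-valued lemmas -/

section

variable {B : Type} [CompleteBooleanAlgebra B] (C : ℕ → BF)

lemma omv_le (i : ℕ) (v : ℕ → (tS B).HSet) (n : (tS B).HSet) :
    bvalX C (fOm i) v ⊓ n.mem (v i) ≤ n.mem (HSet.om (tS B)) := by
  simp only [fOm, bvalX_all, bvalX_iff, bvalX_mem, bvalX_ex, bvalX_and, bvalX_real, scons_zero,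
    scons_succ]
  refine le_trans (inf_le_inf_right _ ((iInf_le _ n).trans inf_le_left)) ?_
  refine himp_inf_le.trans (iSup_le fun r => ?_)
  exact (inf_le_inf_right _ (iInf_le _ n)).trans himp_inf_le

lemma omv_om (i : ℕ) (v : ℕ → (tS B).HSet) (h : v i = HSet.om (tS B)) :
    bvalX C (fOm i) v = ⊤ := by
  simp only [fOm, bvalX_all, bvalX_iff, bvalX_mem, bvalX_ex, bvalX_and, bvalX_real, scons_zero,
    scons_succ, h]
  rw [iInf_eq_top]
  intro n
  rw [inf_eq_top_iff, himp_eq_top_iff, himp_eq_top_iff]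
  constructor
  · refine le_iSup_of_le (HSet.om (tS B)) (le_inf ?_ le_rfl)
    refine le_iInf fun z => ?_
    rw [himp_self]
    exact le_top
  · refine iSup_le fun r => ?_
    exact (inf_le_inf_right _ (iInf_le _ n)).trans himp_inf_le

lemma relv_congr_right (f x y y' : (tS B).HSet) : y.eq y' ⊓ relv f x y ≤ relv f x y' := by
  have h := bvalX_congr_scons (fun _ => BF.atm 0) (xRel 1 2 0) y y' (scons f (fun _ => x))
  simpa only [bvalX_xRel, scons_zero, scons_one, scons_two] using h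

end

/-! ### Ordinals and countable ordinals -/

section

variable {B : Type} [CompleteBooleanAlgebra B] (C : ℕ → BF) {W : Type} [LinearOrder W]
  [WellFoundedLT W]

lemma bvalX_fOrd (i : ℕ) (v : ℕ → (tS B).HSet) (h : v i = oW B W) :
    bvalX C (fOrd i) v = ⊤ := by
  rw [fOrd, bvalX_and, inf_eq_top_iff]
  constructor
  · rw [bvalX_all, iInf_eq_top]
    intro y
    rw [bvalX_imp, himp_eq_top_iff]
    have h1 := le_of_oW (B := B) (W := W) (fun y => bvalX C (FmlX.all ((FmlX.mem 0 1).imp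
      (FmlX.mem 0 (i + 2)))) (scons y v)) (fun x y => bvalX_congr_scons C _ x y _) ⊤ (fun j => ?_) y
    · rw [top_inf_eq] at h1
      simpa only [bvalX_mem, scons_zero, scons_succ, h] using h1
    · rw [bvalX_all]
      refine le_iInf fun z => ?_
      rw [bvalX_imp, le_himp_iff]
      simp only [bvalX_mem, scons_zero, scons_succ, h]
      exact le_of_och (fun z => z.mem (oW B W)) (fun x y => HSet.mem_congr_left _ _ _) j ⊤
        (fun k _ => (mem_oW k).ge) z
  · rw [bvalX_all, iInf_eq_top]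
    intro y
    rw [bvalX_imp, himp_eq_top_iff]
    have h1 := le_of_oW (B := B) (W := W) (fun y => bvalX C (FmlX.all ((FmlX.mem 0 1).imp
      (FmlX.all ((FmlX.mem 0 1).imp (FmlX.mem 0 2))))) (scons y v))
      (fun x y => bvalX_congr_scons C _ x y _) ⊤ (fun j => ?_) y
    · rw [top_inf_eq] at h1
      simpa only [bvalX_mem, scons_zero, scons_succ, h] using h1
    · rw [bvalX_all]
      refine le_iInf fun z => ?_
      rw [bvalX_imp, le_himp_iff]
      refine le_of_och (fun z => bvalX C (FmlX.all ((FmlX.mem 0 1).imp (FmlX.mem 0 2)))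
        (scons z (scons (och B j) v))) (fun x y => bvalX_congr_scons C _ x y _) j ⊤
        (fun k hk => ?_) z
      rw [bvalX_all]
      refine le_iInf fun t => ?_
      rw [bvalX_imp, le_himp_iff]
      simp only [bvalX_mem, scons_zero, scons_one, scons_two]
      exact le_of_och (fun z => z.mem (och B j)) (fun x y => HSet.mem_congr_left _ _ _) k ⊤
        (fun l hl => (och_lt (hl.trans hk)).ge) t

/-- countable initial segments are countable -/
lemma bvalX_fCtbl_och (i : ℕ) (v : ℕ → (tS B).HSet) (j : W) (h : v i = och B j)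
    (hj : (Iio j).Countable) : bvalX C (fCtbl i) v = ⊤ := by
  classical
  obtain ⟨e, he⟩ : ∃ e : W → ℕ, InjOn e (Iio j) := countable_iff_exists_injOn.1 hj
  rw [fCtbl, bvalX_ex, eq_top_iff]
  refine le_iSup_of_le (HSet.om (tS B)) ?_
  rw [bvalX_ex]
  refine le_iSup_of_le (ofn (Iio j) fun k => HSet.num (tS B) (e k)) ?_
  rw [bvalX_and, bvalX_and, omv_om C 1 _ rfl, top_inf_eq]
  refine le_inf ?_ ?_
  · rw [fFnw, bvalX_all]
    refine le_iInf fun a => ?_
    rw [bvalX_imp, le_himp_iff]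
    simp only [bvalX_mem, scons_zero, scons_succ, h]
    refine le_of_och (fun a => bvalX C (FmlX.ex ((xRel 2 1 0).and ((FmlX.mem 0 3).and
      (FmlX.all ((xRel 3 2 0).imp (FmlX.eq 0 1)))))) (scons a (scons (ofn (Iio j) fun k =>
        HSet.num (tS B) (e k)) (scons (HSet.om (tS B)) v)))) (fun x y => bvalX_congr_scons C _ x y _)
      j ⊤ (fun k hk => ?_) a
    rw [bvalX_ex]
    refine le_iSup_of_le (HSet.num (tS B) (e k)) ?_
    simp only [bvalX_and, bvalX_mem, bvalX_all, bvalX_imp, bvalX_eq, bvalX_xRel, scons_zero,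
      scons_one, scons_two, scons_three]
    have e1 : relv (ofn (Iio j) fun k => HSet.num (tS B) (e k)) (och B k)
      (HSet.num (tS B) (e k)) = ⊤ := relv_ofn (fun k => HSet.num (tS B) (e k)) hk
    rw [e1, top_inf_eq]
    refine le_inf ?_ (le_iInf fun n' => ?_)
    · rw [HSet.mem_om]
      refine le_iSup_of_le (e k) ?_
      rw [HSet.eq_refl]
    · rw [le_himp_iff, top_inf_eq]
      exact relv_ofn_le (fun k => HSet.num (tS B) (e k)) k n'
  · rw [fInj, bvalX_all]
    refine le_iInf fun a => ?_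
    rw [bvalX_all]
    refine le_iInf fun a' => ?_
    rw [bvalX_all]
    refine le_iInf fun n => ?_
    simp only [bvalX_mem, bvalX_imp, bvalX_eq, bvalX_xRel, scons_zero,
      scons_succ, h]
    rw [le_himp_iff, top_inf_eq, le_himp_iff, le_himp_iff, le_himp_iff]
    set f := ofn (Iio j) fun k => HSet.num (tS B) (e k) with hf
    rw [mem_och, mem_och, iSup_inf_eq, iSup_inf_eq, iSup_inf_eq]
    refine iSup_le fun k => ?_
    rw [inf_iSup_eq, iSup_inf_eq, iSup_inf_eq]
    refine iSup_le fun k' => ?_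
    have c1 : a.eq (och B k.1) ⊓ relv f a n ≤ relv f (och B k.1) n := by
      have h := bvalX_congr_scons (fun _ => BF.atm 0) (xRel 1 0 2) a (och B k.1)
        (scons f (fun _ => n))
      simpa only [bvalX_xRel, scons_zero, scons_one, scons_two] using h
    have c2 : a'.eq (och B k'.1) ⊓ relv f a' n ≤ relv f (och B k'.1) n := by
      have h := bvalX_congr_scons (fun _ => BF.atm 0) (xRel 1 0 2) a' (och B k'.1)
        (scons f (fun _ => n))
      simpa only [bvalX_xRel, scons_zero, scons_one, scons_two] using h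
    by_cases hkk : k.1 = k'.1
    · rw [← hkk]
      refine le_trans (inf_le_left.trans inf_le_left) ?_
      rw [HSet.eq_symm a']
      exact HSet.eq_trans _ _ _
    · have h1 : a.eq (och B k.1) ⊓ a'.eq (och B k'.1) ⊓ relv f a n ⊓ relv f a' n ≤
          n.eq (HSet.num (tS B) (e k.1)) ⊓ n.eq (HSet.num (tS B) (e k'.1)) := by
        refine le_inf ?_ ?_
        · refine le_trans ?_ (relv_ofn_le (D := Iio j) (fun k => HSet.num (tS B) (e k)) k.1 n)
          refine le_trans ?_ c1
          exact le_inf (inf_le_left.trans (inf_le_left.trans inf_le_left))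
            (inf_le_left.trans inf_le_right)
        · refine le_trans ?_ (relv_ofn_le (D := Iio j) (fun k => HSet.num (tS B) (e k)) k'.1 n)
          refine le_trans ?_ c2
          exact le_inf (inf_le_left.trans (inf_le_left.trans inf_le_right)) inf_le_right
      refine h1.trans ?_
      rw [HSet.eq_symm n (HSet.num (tS B) (e k.1))]
      refine (HSet.eq_trans _ _ _).trans ?_
      rw [num_eq_bot]
      · exact bot_le
      · intro hee
        exact hkk (he k.2 k'.2 hee)

end

/-! ### The forcing argument -/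

section

/-- the algebra -/
noncomputable abbrev BD : Type := RO (Cnd (Omega1 × Omega1))

lemma le_of_emb {P : Type} [Preorder P] {a b : RO P}
    (h : ∀ p : P, emb p ≤ a → emb p ≤ b) : a ≤ b := by
  by_contra hcon
  have h1 : a ⊓ bᶜ ≠ ⊥ := fun h2 => hcon (le_of_inf_compl h2)
  obtain ⟨r, hr⟩ := exists_emb_le h1
  exact emb_ne_bot r (bot_of_compl (h r (hr.trans inf_le_left)) (hr.trans inf_le_right))

variable (C : ℕ → BF)

instance : Nonempty Omega1 := by
  rw [← Cardinal.mk_ne_zero_iff, Cardinal.mk_ord_toType]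
  exact (Cardinal.aleph_pos 1).ne'

/-- `ω₁` is not countable in the extension -/
theorem bvalX_fCtbl_oW (i : ℕ) (v : ℕ → (tS BD).HSet) (h : v i = oW BD Omega1) :
    bvalX C (fCtbl i) v = ⊥ := by
  classical
  rw [← le_bot_iff, fCtbl, bvalX_ex]
  refine iSup_le fun w => ?_
  rw [bvalX_ex]
  refine iSup_le fun f => ?_
  rw [bvalX_and, bvalX_and]
  set v' := scons f (scons w v) with hv'
  have hvi : v' (i + 2) = oW BD Omega1 := by
    simp only [hv', scons_succ, h]
  refine le_of_emb fun p hp => ?_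
  exfalso
  have hp1 : emb p ≤ bvalX C (fOm 1) v' := hp.trans inf_le_left
  have hp2 : emb p ≤ bvalX C (fFnw i) v' := hp.trans (inf_le_right.trans inf_le_left)
  have hp3 : emb p ≤ bvalX C (fInj i) v' := hp.trans (inf_le_right.trans inf_le_right)
  let t : ℕ → Omega1 → BD := fun n j => relv f (och BD j) (HSet.num (tS BD) n)
  -- `f` is total
  have hF : ∀ j, emb p ≤ ⨆ n, t n j := by
    intro j
    have h1 : bvalX C (fFnw i) v' ≤ ⨆ n : (tS BD).HSet, relv f (och BD j) n ⊓ n.mem w := by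
      rw [fFnw, bvalX_all]
      refine (iInf_le _ (och BD j)).trans ?_
      simp only [bvalX_and, bvalX_ex, bvalX_mem, bvalX_all, bvalX_imp, bvalX_eq, bvalX_xRel,
        scons_zero, scons_succ, hv', h]
      rw [mem_oW, top_himp]
      exact iSup_mono fun n => le_inf inf_le_left (inf_le_right.trans inf_le_left)
    have h2 : emb p ≤ bvalX C (fOm 1) v' ⊓ ⨆ n : (tS BD).HSet, relv f (och BD j) n ⊓ n.mem w :=
      le_inf hp1 (hp2.trans h1)
    refine h2.trans (inf_iSup_le' fun n => ?_)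
    have h3 : bvalX C (fOm 1) v' ⊓ (relv f (och BD j) n ⊓ n.mem w) ≤
        n.mem (HSet.om (tS BD)) ⊓ relv f (och BD j) n := by
      refine le_inf ?_ (inf_le_right.trans inf_le_left)
      refine le_trans ?_ (omv_le C 1 v' n)
      exact le_inf inf_le_left (inf_le_right.trans inf_le_right)
    refine h3.trans ?_
    rw [HSet.mem_om]
    exact iSup_inf_le' fun k => (relv_congr_right _ _ _ _).trans (le_iSup (fun n => t n j) k)
  -- `f` is injective
  have hI : ∀ n j k, j ≠ k → ∀ q ≤ p, emb q ≤ t n j → emb q ≤ t n k → False := by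
    intro n j k hjk q hq h1 h2
    have h3 : bvalX C (fInj i) v' ≤ t n j ⇨ (t n k ⇨ (och BD j).eq (och BD k)) := by
      rw [fInj, bvalX_all]
      refine (iInf_le _ (och BD j)).trans ?_
      rw [bvalX_all]
      refine (iInf_le _ (och BD k)).trans ?_
      rw [bvalX_all]
      refine (iInf_le _ (HSet.num (tS BD) n)).trans ?_
      simp only [bvalX_mem, bvalX_imp, bvalX_eq, bvalX_xRel, scons_zero,
        scons_succ, hv', h]
      rw [mem_oW, mem_oW, top_himp, top_himp]
    have h4 : emb q ≤ t n j ⇨ (t n k ⇨ (och BD j).eq (och BD k)) :=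
      (emb_mono hq).trans (hp3.trans h3)
    have h5 := (le_inf h4 h1).trans himp_inf_le
    have h6 := (le_inf h5 h2).trans himp_inf_le
    rw [och_ne hjk] at h6
    exact emb_ne_bot q (le_bot_iff.1 h6)
  -- the sequence
  have hstep : ∀ (n : ℕ) (q : Cnd (Omega1 × Omega1)), ∃ r ≤ q, ∃ j,
      emb r ≤ t n j ∨ emb r ≤ (⨆ j, t n j)ᶜ := by
    intro n q
    obtain ⟨r, hr, h1 | h1⟩ := exists_dec q (⨆ j, t n j)
    · obtain ⟨s, hs, j, hj⟩ := exists_le_iSup h1
      exact ⟨s, hs.trans hr, j, Or.inl hj⟩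
    · exact ⟨r, hr, Classical.arbitrary _, Or.inr h1⟩
  choose F hF1 J hJ using hstep
  let s : ℕ → Cnd (Omega1 × Omega1) := fun n => Nat.rec p (fun n q => F n q) n
  have hs : ∀ n, s (n + 1) = F n (s n) := fun n => rfl
  obtain ⟨q, hq, _⟩ := Cnd.exists_lower s fun n => by rw [hs]; exact hF1 _ _
  have hqp : q ≤ p := hq 0
  obtain ⟨k, hk⟩ := omega1_bound (range fun n => J n (s n)) (countable_range _)
  obtain ⟨r, hr, n, hn⟩ := exists_le_iSup ((emb_mono hqp).trans (hF k))
  have hrs : r ≤ F n (s n) := by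
    rw [← hs]
    exact hr.trans (hq (n + 1))
  rcases hJ n (s n) with h1 | h1
  · have h2 : J n (s n) ≠ k := (hk _ ⟨n, rfl⟩).ne
    exact hI n _ k h2 r (hr.trans hqp) ((emb_mono hrs).trans h1) hn
  · have h2 : emb r ≤ (⨆ j, t n j)ᶜ := (emb_mono hrs).trans h1
    have h3 : emb r ≤ ⨆ j, t n j := hn.trans (le_iSup (t n) k)
    exact emb_ne_bot r (bot_of_compl h3 h2)

/-- the sets of the `◇`-sequence -/
noncomputable def SD (j : Omega1) : (tS BD).HSet :=
  fm (fun k : {k : Omega1 // k < j} => och BD k.1) (fun k => gval (j, k.1))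

lemma mem_SD (x : (tS BD).HSet) (j : Omega1) : x.mem (SD j) =
    ⨆ k : {k : Omega1 // k < j}, gval (j, k.1) ⊓ x.eq (och BD k.1) := by
  rw [SD, mem_fm]
  rfl

/-- the name of the `◇`-sequence -/
noncomputable def AD : (tS BD).HSet := ofn univ SD

/-- the value of the club property -/
noncomputable def unbv (D : (tS BD).HSet) : BD :=
  ⨅ a : (tS BD).HSet, a.mem (oW BD Omega1) ⇨ ⨆ b : (tS BD).HSet, b.mem D ⊓ a.mem b

/-- the value of the closure property -/
noncomputable def clv (D : (tS BD).HSet) : BD :=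
  ⨅ a : (tS BD).HSet, a.mem (oW BD Omega1) ⇨ ((⨆ b : (tS BD).HSet, b.mem a) ⇨
    ((⨅ b : (tS BD).HSet, b.mem a ⇨ ⨆ c : (tS BD).HSet, c.mem D ⊓ (b.mem c ⊓ c.mem a)) ⇨
      a.mem D))

/-- the value of the inclusion -/
noncomputable def subv (x y : (tS BD).HSet) : BD := ⨅ z : (tS BD).HSet, z.mem x ⇨ z.mem y

theorem diamond_dense (X D : (tS BD).HSet) (p : Cnd (Omega1 × Omega1))
    (hsub : emb p ≤ subv D (oW BD Omega1)) (hunb : emb p ≤ unbv D) (hcl : emb p ≤ clv D) :
    ∃ q ≤ p, ∃ j : Omega1, emb q ≤ (och BD j).mem D ∧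
      emb q ≤ ⨅ x : (tS BD).HSet, (x.mem (SD j) ⇨ x.mem X ⊓ x.mem (och BD j)) ⊓
        (x.mem X ⊓ x.mem (och BD j) ⇨ x.mem (SD j)) := by
  classical
  -- one step
  have hstep : ∀ (s : Cnd (Omega1 × Omega1)) (α : Omega1), ∃ (s' : Cnd (Omega1 × Omega1))
      (α' : Omega1), s' ≤ s ∧ α < α' ∧ (∀ x, s'.f x ≠ none → x.1 < α' ∧ x.2 < α') ∧
      (∀ ξ < α, emb s' ≤ (och BD ξ).mem X ∨ emb s' ≤ ((och BD ξ).mem X)ᶜ) ∧
      (s ≤ p → ∃ γ, α < γ ∧ γ < α' ∧ emb s' ≤ (och BD γ).mem D) := by
    intro s α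
    have hc : Countable (Iio α) := (omega1_Iio_countable α).to_subtype
    obtain ⟨s1, hs1, hd⟩ := exists_dec_all s fun ξ : Iio α => (och BD ξ.1).mem X
    have h1 : ∃ s2 ≤ s1, s ≤ p → ∃ γ, α < γ ∧ emb s2 ≤ (och BD γ).mem D := by
      by_cases hsp : s ≤ p
      · have h2 : emb s1 ≤ ⨆ γ : Omega1, (och BD γ).mem D ⊓ (och BD α).mem (och BD γ) := by
          have h3 : emb s1 ≤ ⨆ b : (tS BD).HSet, b.mem D ⊓ (och BD α).mem b := by
            have h4 : unbv D ≤ (och BD α).mem (oW BD Omega1) ⇨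
                ⨆ b : (tS BD).HSet, b.mem D ⊓ (och BD α).mem b := iInf_le _ _
            rw [mem_oW, top_himp] at h4
            exact (emb_mono (hs1.trans hsp)).trans (hunb.trans h4)
          have h5 : emb s1 ≤ subv D (oW BD Omega1) ⊓
              ⨆ b : (tS BD).HSet, b.mem D ⊓ (och BD α).mem b :=
            le_inf ((emb_mono (hs1.trans hsp)).trans hsub) h3
          refine h5.trans (inf_iSup_le' fun b => ?_)
          have h6 : subv D (oW BD Omega1) ⊓ (b.mem D ⊓ (och BD α).mem b) ≤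
              b.mem (oW BD Omega1) ⊓ (b.mem D ⊓ (och BD α).mem b) := by
            refine le_inf ?_ inf_le_right
            refine le_trans (inf_le_inf_left _ inf_le_left) ?_
            exact (inf_le_inf_right _ (iInf_le _ b)).trans himp_inf_le
          refine h6.trans ?_
          rw [mem_oW_eq]
          refine iSup_inf_le' fun γ => le_iSup_of_le γ (le_inf ?_ ?_)
          · exact (inf_le_inf_left _ inf_le_left).trans (HSet.mem_congr_left _ _ _)
          · exact (inf_le_inf_left _ inf_le_right).trans (HSet.mem_congr_right _ _ _)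
        obtain ⟨s2, hs2, γ, hγ⟩ := exists_le_iSup h2
        refine ⟨s2, hs2, fun _ => ⟨γ, ?_, hγ.trans inf_le_left⟩⟩
        by_contra hcon
        have h7 := hγ.trans inf_le_right
        rw [och_ge (not_lt.1 hcon)] at h7
        exact emb_ne_bot s2 (le_bot_iff.1 h7)
      · exact ⟨s1, le_rfl, fun h => (hsp h).elim⟩
    obtain ⟨s2, hs2, h1⟩ := h1
    obtain ⟨γ, hγ⟩ : ∃ γ, s ≤ p → α < γ ∧ emb s2 ≤ (och BD γ).mem D := by
      by_cases hsp : s ≤ p
      · obtain ⟨γ, h⟩ := h1 hsp
        exact ⟨γ, fun _ => h⟩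
      · exact ⟨α, fun h => (hsp h).elim⟩
    obtain ⟨α', hα'⟩ := omega1_bound ({α, γ} ∪ ((Prod.fst '' {x | s2.f x ≠ none}) ∪
      (Prod.snd '' {x | s2.f x ≠ none}))) (((countable_singleton γ).insert α).union
        ((s2.ctbl.image _).union (s2.ctbl.image _)))
    refine ⟨s2, α', hs2.trans hs1, hα' _ (Or.inl (Or.inl rfl)), ?_, ?_, ?_⟩
    · intro x hx
      exact ⟨hα' _ (Or.inr (Or.inl ⟨x, hx, rfl⟩)), hα' _ (Or.inr (Or.inr ⟨x, hx, rfl⟩))⟩
    · intro ξ hξ
      rcases hd ⟨ξ, hξ⟩ with h | h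
      · exact Or.inl ((emb_mono hs2).trans h)
      · exact Or.inr ((emb_mono hs2).trans h)
    · intro hsp
      exact ⟨γ, (hγ hsp).1, hα' _ (Or.inl (Or.inr rfl)), (hγ hsp).2⟩
  choose F G h1 h2 h3 h4 h5 using hstep
  let st : ℕ → Cnd (Omega1 × Omega1) × Omega1 := fun n =>
    Nat.rec (p, Classical.arbitrary _) (fun _ s => (F s.1 s.2, G s.1 s.2)) n
  have hst : ∀ n, st (n + 1) = (F (st n).1 (st n).2, G (st n).1 (st n).2) := fun n => rfl
  have hle : ∀ n, (st (n + 1)).1 ≤ (st n).1 := fun n => by rw [hst]; exact h1 _ _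
  have hlep : ∀ n, (st n).1 ≤ p := by
    intro n
    induction n with
    | zero => exact le_rfl
    | succ n ih => exact (hle n).trans ih
  have hlt : ∀ n, (st n).2 < (st (n + 1)).2 := fun n => by rw [hst]; exact h2 _ _
  have hmono : StrictMono fun n => (st n).2 := strictMono_nat_of_lt_succ hlt
  obtain ⟨q, hq, hqn⟩ := Cnd.exists_lower (fun n => (st (n + 1)).1) fun n => hle (n + 1)
  obtain ⟨β, hβ⟩ := omega1_bound (range fun n => (st n).2) (countable_range _)
  have wf : WellFounded (fun i j : Omega1 => i < j) := wellFounded_lt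
  have hne : {δ : Omega1 | ∀ n, (st n).2 < δ}.Nonempty := ⟨β, fun n => hβ _ ⟨n, rfl⟩⟩
  let δ := wf.min {δ : Omega1 | ∀ n, (st n).2 < δ} hne
  have hδ : ∀ n, (st n).2 < δ := wf.min_mem {δ : Omega1 | ∀ n, (st n).2 < δ} hne
  have hδ2 : ∀ ξ < δ, ∃ n, ξ ≤ (st n).2 := by
    intro ξ hξ
    by_contra hcon
    push Not at hcon
    exact wf.not_lt_min {δ : Omega1 | ∀ n, (st n).2 < δ} hcon hξ
  -- the support of `q`
  have hsupp : ∀ x : Omega1 × Omega1, x.1 = δ → q.f x = none := by
    intro x hx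
    refine hqn x fun n => ?_
    by_contra hcon
    have h6 := (h3 (st n).1 (st n).2 x (by rw [hst] at hcon; exact hcon)).1
    have h7 := hδ (n + 1)
    rw [hst] at h7
    rw [hx] at h6
    exact lt_asymm h6 h7
  have hdec : ∀ ξ < δ, emb q ≤ (och BD ξ).mem X ∨ emb q ≤ ((och BD ξ).mem X)ᶜ := by
    intro ξ hξ
    obtain ⟨n, hn⟩ := hδ2 ξ hξ
    have h6 := h4 (st (n + 1)).1 (st (n + 1)).2 ξ (hn.trans_lt (hlt n))
    have h7 : q ≤ F (st (n + 1)).1 (st (n + 1)).2 := by
      have h8 := hq (n + 1)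
      rw [hst (n + 1)] at h8
      exact h8
    rcases h6 with h | h
    · exact Or.inl ((emb_mono h7).trans h)
    · exact Or.inr ((emb_mono h7).trans h)
  let d : Omega1 × Omega1 → Bool := fun x => decide (emb q ≤ (och BD x.2).mem X)
  obtain ⟨q', hq', hd'⟩ := Cnd.exists_ext q ((fun ξ => (δ, ξ)) '' Iio δ)
    ((omega1_Iio_countable δ).image _) d (by
      rintro _ ⟨ξ, _, rfl⟩
      exact hsupp _ rfl)
  have hq'p : q' ≤ p := hq'.trans ((hq 0).trans (hlep 1))
  refine ⟨q', hq'p, δ, ?_, ?_⟩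
  · -- `δ ∈ D`
    have h6 : clv D ≤ (och BD δ).mem (oW BD Omega1) ⇨ ((⨆ b : (tS BD).HSet, b.mem (och BD δ)) ⇨
        ((⨅ b : (tS BD).HSet, b.mem (och BD δ) ⇨ ⨆ c : (tS BD).HSet, c.mem D ⊓ (b.mem c ⊓
          c.mem (och BD δ))) ⇨ (och BD δ).mem D)) := iInf_le _ _
    rw [mem_oW, top_himp] at h6
    have h7 : (⨆ b : (tS BD).HSet, b.mem (och BD δ)) = ⊤ := by
      rw [eq_top_iff]
      refine le_iSup_of_le (och BD (st 0).2) ?_
      rw [och_lt (hδ 0)]
    rw [h7, top_himp] at h6
    have h8 : emb q' ≤ ⨅ b : (tS BD).HSet, b.mem (och BD δ) ⇨ ⨆ c : (tS BD).HSet, c.mem D ⊓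
        (b.mem c ⊓ c.mem (och BD δ)) := by
      refine le_iInf fun b => ?_
      rw [le_himp_iff]
      have hP : ∀ x y : (tS BD).HSet, x.eq y ⊓ (⨆ c : (tS BD).HSet, c.mem D ⊓
          (x.mem c ⊓ c.mem (och BD δ))) ≤ ⨆ c : (tS BD).HSet, c.mem D ⊓
          (y.mem c ⊓ c.mem (och BD δ)) := by
        intro x y
        have h := bvalX_congr_scons (fun _ => BF.atm 0) (FmlX.ex ((FmlX.mem 0 2).and
          ((FmlX.mem 1 0).and (FmlX.mem 0 3)))) x y (scons D (fun _ => och BD δ))
        simp only [bvalX_ex, bvalX_and, bvalX_mem, scons_zero, scons_one, scons_two,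
          scons_three] at h
        exact h
      refine le_of_och (fun b => ⨆ c : (tS BD).HSet, c.mem D ⊓
        (b.mem c ⊓ c.mem (och BD δ))) hP δ (emb q') (fun ξ hξ => ?_) b
      obtain ⟨n, hn⟩ := hδ2 ξ hξ
      obtain ⟨γ, hγ1, hγ2, hγ3⟩ := h5 (st n).1 (st n).2 (hlep n)
      refine le_iSup_of_le (och BD γ) ?_
      have h9 : q' ≤ F (st n).1 (st n).2 := by
        have := hq n
        rw [hst] at this
        exact hq'.trans this
      have h10 : γ < δ := by
        have := hδ (n + 1)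
        rw [hst] at this
        exact hγ2.trans this
      rw [och_lt (hn.trans_lt hγ1), och_lt h10]
      exact le_inf_top ((emb_mono h9).trans hγ3)
    exact (le_inf ((emb_mono hq'p).trans (hcl.trans h6)) h8).trans himp_inf_le
  · refine le_iInf fun x => le_inf ?_ ?_
    · rw [le_himp_iff, mem_SD]
      refine inf_iSup_le' fun k => ?_
      have hk := hd' (δ, k.1) ⟨k.1, k.2, rfl⟩
      rcases hdec k.1 k.2 with h6 | h6
      · refine le_inf ?_ ?_
        · refine le_trans ?_ (HSet.mem_congr_left (och BD k.1) x X)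
          rw [HSet.eq_symm]
          exact le_inf (inf_le_right.trans inf_le_right)
            (inf_le_left.trans ((emb_mono hq').trans h6))
        · rw [mem_och]
          exact (inf_le_right.trans inf_le_right).trans
            (le_iSup (fun j : {j : Omega1 // j < δ} => x.eq (och BD j.1)) k)
      · have h7 : d (δ, k.1) = false := by
          simp only [d, decide_eq_false_iff_not]
          intro h8
          exact emb_ne_bot q (bot_of_compl h8 h6)
        rw [h7] at hk
        have h8 := emb_le_gval_compl hk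
        have h9 : emb q' ⊓ (gval (δ, k.1) ⊓ x.eq (och BD k.1)) ≤ ⊥ := by
          calc emb q' ⊓ (gval (δ, k.1) ⊓ x.eq (och BD k.1)) ≤
              (gval (δ, k.1))ᶜ ⊓ gval (δ, k.1) := inf_le_inf h8 inf_le_left
            _ ≤ ⊥ := (compl_inf_self _).le
        exact h9.trans bot_le
    · rw [le_himp_iff, mem_och]
      refine inf3_iSup_le fun k => ?_
      have hk := hd' (δ, k.1) ⟨k.1, k.2, rfl⟩
      have h10 : emb q' ⊓ (x.mem X ⊓ x.eq (och BD k.1)) ≤ (och BD k.1).mem X := by
        refine le_trans ?_ (HSet.mem_congr_left x (och BD k.1) X)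
        exact le_inf (inf_le_right.trans inf_le_right) (inf_le_right.trans inf_le_left)
      rcases hdec k.1 k.2 with h7 | h7
      · have h8 : d (δ, k.1) = true := by
          simp only [d, decide_eq_true_eq]
          exact h7
        rw [h8] at hk
        rw [mem_SD]
        refine le_iSup_of_le k (le_inf ?_ (inf_le_right.trans inf_le_right))
        exact inf_le_left.trans (emb_le_gval hk)
      · have h11 : emb q' ⊓ (x.mem X ⊓ x.eq (och BD k.1)) ≤ ((och BD k.1).mem X)ᶜ :=
          inf_le_left.trans ((emb_mono hq').trans h7)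
        exact le_of_compl h10 h11

/-- `◇` has Boolean value `⊤` -/
theorem bvalX_fDia (v : ℕ → (tS BD).HSet) : bvalX C fDia v = ⊤ := by
  classical
  rw [fDia, bvalX_ex, eq_top_iff]
  refine le_iSup_of_le (oW BD Omega1) ?_
  rw [bvalX_ex]
  refine le_iSup_of_le AD ?_
  rw [bvalX_and, bvalX_and, bvalX_and, bvalX_and]
  refine le_inf (le_inf ?_ (le_inf ?_ ?_)) (le_inf ?_ ?_)
  · rw [bvalX_fOrd C (W := Omega1) 1 _ rfl]
  · rw [bvalX_neg, bvalX_fCtbl_oW C 1 _ rfl, compl_bot]
  · rw [bvalX_all]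
    refine le_iInf fun y => ?_
    rw [bvalX_imp, le_himp_iff]
    refine le_of_oW (B := BD) (W := Omega1) (fun y => bvalX C (fCtbl 0) (scons y
      (scons AD (scons (oW BD Omega1) v)))) (fun x y => bvalX_congr_scons C _ x y _) ⊤
      (fun j => ?_) y
    rw [bvalX_fCtbl_och C 0 _ j rfl (omega1_Iio_countable j)]
  · rw [bvalX_all]
    refine le_iInf fun a => ?_
    rw [bvalX_imp, le_himp_iff]
    refine le_of_oW (B := BD) (W := Omega1) (fun a => bvalX C (FmlX.ex ((xRel 2 1 0).and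
      (FmlX.all ((xRel 3 2 0).imp (FmlX.eq 0 1))))) (scons a (scons AD (scons (oW BD Omega1) v))))
      (fun x y => bvalX_congr_scons C _ x y _) ⊤ (fun j => ?_) a
    rw [bvalX_ex]
    refine le_iSup_of_le (SD j) ?_
    simp only [bvalX_and, bvalX_all, bvalX_imp, bvalX_eq, bvalX_xRel, scons_zero, scons_one,
      scons_two, scons_three]
    have e1 : relv AD (och BD j) (SD j) = ⊤ := relv_ofn SD (mem_univ j)
    rw [e1, top_inf_eq]
    refine le_iInf fun S' => ?_
    rw [le_himp_iff, top_inf_eq]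
    exact relv_ofn_le SD j S'
  · rw [bvalX_all]
    refine le_iInf fun X => ?_
    rw [bvalX_all]
    refine le_iInf fun D => ?_
    rw [bvalX_imp, le_himp_iff, top_inf_eq, bvalX_imp, le_himp_iff]
    refine inf_le_right.trans ?_
    simp only [fClub, fSub, fGuess, bvalX_and, bvalX_ex, bvalX_all, bvalX_imp, bvalX_iff,
      bvalX_mem, bvalX_xRel, scons_zero, scons_one, scons_two, scons_three, scons_four,
      Nat.reduceAdd]
    refine le_of_emb fun p hp => ?_
    refine emb_le_of_dense fun q hq => ?_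
    obtain ⟨r, hr, j, hj1, hj2⟩ := diamond_dense X D q
      ((emb_mono hq).trans (hp.trans inf_le_left))
      ((emb_mono hq).trans (hp.trans (inf_le_right.trans inf_le_left)))
      ((emb_mono hq).trans (hp.trans (inf_le_right.trans inf_le_right)))
    refine ⟨r, hr, le_iSup_of_le (och BD j) (le_iSup_of_le (SD j) ?_)⟩
    have e1 : relv AD (och BD j) (SD j) = ⊤ := relv_ofn SD (mem_univ j)
    rw [e1, top_inf_eq]
    exact le_inf hj1 hj2

end

instance {P : Type} [Preorder P] [Nonempty P] : Nontrivial (RO P) :=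
  ⟨⟨emb (Classical.arbitrary P), ⊥, emb_ne_bot _⟩⟩

instance {D : Type} : Nonempty (Cnd D) := ⟨⟨fun _ => none, by simp⟩⟩

/-- There is a countable well-founded model of `ZFC` in which `◇` holds. -/
theorem exists_diamond_model : ∃ (M : Type) (E : M → M → Prop), Countable M ∧ WellFounded E ∧
    OmegaStd E ∧ IsZFC E ∧ DiamondIn E := by
  obtain ⟨M, E, h1, h2, h3, h4, h5⟩ := exists_model BD (fun _ => BF.atm 0)
  obtain ⟨w, _⟩ := h4.zf.infinity
  exact ⟨M, E, h1, h2, h3, h4, dia_of_sat _ (fun _ => w) h4.zf (h5 fDia (bvalX_fDia _) _)⟩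

end Pool.Agent.Lib.RM48
end
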